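import Pool.Agent.Lib.MP_29e7a7_co.PP.Basic

/-!
# Path partitions with a small surplus: paths, cycles and maximal sets
-/

set_option autoImplicit false

namespace Pool.Agent.Lib.MP_29e7a7_co.OC

open Pool.Agent.Lib.MP_29e7a7_co.PP

variable {V : Type} {G : SimpleGraph V}

/-- an infix of the doubled cycle without repetition is a path -/
theorem chain_double {o : List V} (h : IsCyc G o) : (o ++ o).IsChain G.Adj := by
  obtain ⟨_, x, l, rfl, hc⟩ := h
  have h1 : ((x :: l) ++ x :: l).IsChain G.Adj := by
    rw [List.isChain_split]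
    refine ⟨by simpa using hc, ?_⟩
    have h2 : (x :: l) ++ [x] = x :: (l ++ [x]) := rfl
    rw [← h2] at hc
    exact (List.isChain_append.mp hc).1
  exact h1

theorem isP_of_infix {o p l₁ l₂ : List V} (h : IsCyc G o) (he : o ++ o = l₁ ++ (p ++ l₂))
    (hn : p.Nodup) : IsP G p := by
  refine ⟨hn, ?_⟩
  have h1 := chain_double h
  rw [he] at h1
  have h2 := (List.isChain_append.mp h1).2.1
  exact (List.isChain_append.mp h2).1

/-- rotation of a cycle ending at a given element -/
theorem rot_end {o l₁ l₂ : List V} {z : V} (h : IsCyc G o) (he : o = l₁ ++ z :: l₂) :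
    IsP G ((l₂ ++ l₁) ++ [z]) := by
  refine isP_of_infix (l₁ := l₁ ++ [z]) (l₂ := l₂) h ?_ ?_
  · rw [he]; simp
  · have hn := h.1
    rw [he] at hn
    have hp : List.Perm ((l₂ ++ l₁) ++ [z]) (l₁ ++ z :: l₂) := by
      have h1 : List.Perm (l₂ ++ (l₁ ++ [z])) ((l₁ ++ [z]) ++ l₂) := List.perm_append_comm
      simpa using h1
    exact hp.nodup_iff.mpr hn

/-- rotation of a cycle starting at a given element -/
theorem rot_start {o l₁ l₂ : List V} {z : V} (h : IsCyc G o) (he : o = l₁ ++ z :: l₂) :
    IsP G (z :: (l₂ ++ l₁)) := by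
  refine isP_of_infix (l₁ := l₁) (l₂ := z :: l₂) h ?_ ?_
  · rw [he]; simp
  · have hn := h.1
    rw [he] at hn
    have hp : List.Perm (z :: (l₂ ++ l₁)) (l₁ ++ z :: l₂) := by
      have h1 : List.Perm ((z :: l₂) ++ l₁) (l₁ ++ (z :: l₂)) := List.perm_append_comm
      simpa using h1
    exact hp.nodup_iff.mpr hn

/-- first element of a list with a given property -/
theorem exists_first (p : V → Prop) : ∀ l : List V, (∃ x ∈ l, p x) →
    ∃ l₁ x l₂, l = l₁ ++ x :: l₂ ∧ p x ∧ ∀ y ∈ l₁, ¬ p y := by
  intro l
  induction l with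
  | nil => rintro ⟨x, hx, _⟩; exact absurd hx (List.not_mem_nil)
  | cons a l ih =>
    intro h
    by_cases ha : p a
    · exact ⟨[], a, l, rfl, ha, fun y hy => absurd hy (List.not_mem_nil)⟩
    · obtain ⟨x, hx, hpx⟩ := h
      have hx' : x ∈ l := by
        rcases List.mem_cons.mp hx with rfl | hx
        · exact absurd hpx ha
        · exact hx
      obtain ⟨l₁, y, l₂, he, hy, hl⟩ := ih ⟨x, hx', hpx⟩
      refine ⟨a :: l₁, y, l₂, by rw [he]; rfl, hy, ?_⟩
      intro z hz
      rcases List.mem_cons.mp hz with rfl | hz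
      · exact ha
      · exact hl z hz

/-- the end of a path outside a maximal set is adjacent to a long path of the set -/
theorem extend [DecidableEq V] {A : Finset V} {a : ℕ} {v : V} (hA : Det G A a)
    (hv : ¬ Det G (insert v A) a) :
    ∃ l, IsP G (v :: l) ∧ (∀ x ∈ l, x ∈ A) ∧ a ≤ 2 * l.length := by
  unfold Det at hv
  push Not at hv
  obtain ⟨p, hp, hpA, hlen⟩ := hv
  have hvp : v ∈ p := by
    by_contra hvp
    refine absurd (hA p hp ?_) (by omega)
    intro x hx
    rcases Finset.mem_insert.mp (hpA x hx) with rfl | h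
    · exact absurd hx hvp
    · exact h
  obtain ⟨l₁, l₂, rfl⟩ := List.append_of_mem hvp
  have hs := isP_split.mp hp
  have hn := hp.1
  have hmem : ∀ x ∈ l₁ ++ l₂, x ∈ A := by
    intro x hx
    have hxv : x ≠ v := by
      rintro rfl
      have : (x :: (l₁ ++ l₂)).Nodup := (List.perm_middle.nodup_iff).mp hn
      exact (List.nodup_cons.mp this).1 hx
    have : x ∈ l₁ ++ v :: l₂ := by
      rcases List.mem_append.mp hx with h | h
      · exact List.mem_append_left _ h
      · exact List.mem_append_right _ (List.mem_cons_of_mem _ h)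
    rcases Finset.mem_insert.mp (hpA x this) with h | h
    · exact absurd h hxv
    · exact h
  have hlen2 : a ≤ l₁.length + l₂.length := by
    have : (l₁ ++ v :: l₂).length = l₁.length + l₂.length + 1 := by
      simp; omega
    omega
  by_cases hc : l₂.length ≤ l₁.length
  · refine ⟨l₁.reverse, ?_, ?_, ?_⟩
    · have := hs.1.reverse
      simpa using this
    · intro x hx
      exact hmem x (List.mem_append_left _ (List.mem_reverse.mp hx))
    · rw [List.length_reverse]; omega
  · exact ⟨l₂, hs.2.1, fun x hx => hmem x (List.mem_append_right _ hx), by omega⟩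

/-- a path with two disjoint prolongations -/
theorem isP_two {l l' t : List V} {v w : V} (h1 : IsP G (v :: l)) (hQ : IsP G (v :: t))
    (h2 : IsP G (w :: l')) (hw : (v :: t).getLast? = some w) (hd1 : List.Disjoint l (v :: t))
    (hd2 : List.Disjoint (v :: t) l') (hd : List.Disjoint l l') :
    IsP G (l.reverse ++ v :: (t ++ l')) := by
  have hQ' : IsP G (v :: (t ++ l')) := by
    obtain ⟨init, hinit⟩ : ∃ init, v :: t = init ++ [w] := by
      rw [List.getLast?_eq_some_iff] at hw
      exact hw
    have h3 : v :: (t ++ l') = init ++ w :: l' := by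
      have : (v :: t) ++ l' = (init ++ [w]) ++ l' := by rw [hinit]
      simpa using this
    rw [h3, isP_split]
    refine ⟨by rw [← hinit]; exact hQ, h2, ?_⟩
    intro x hx hx2
    exact hd2 (by rw [hinit]; exact List.mem_append_left _ hx) hx2
  rw [isP_split]
  refine ⟨?_, hQ', ?_⟩
  · have := h1.reverse
    simpa using this
  · intro x hx hx2
    have hx := List.mem_reverse.mp hx
    rcases List.mem_append.mp hx2 with h | h
    · exact hd1 hx (List.mem_cons_of_mem _ h)
    · exact hd hx h

/-- closing a path by two intersecting prolongations -/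
theorem close_up {l l' t : List V} {v w : V} (h1 : IsP G (v :: l)) (hQ : IsP G (v :: t))
    (h2 : IsP G (w :: l')) (hw : (v :: t).getLast? = some w) (hd1 : List.Disjoint l (v :: t))
    (hd2 : List.Disjoint (v :: t) l') (hd : ¬ List.Disjoint l l') :
    ∃ m, IsCyc G (v :: (t ++ m)) ∧ 1 ≤ m.length ∧ ∀ x ∈ m, x ∈ l ∨ x ∈ l' := by
  have hex : ∃ x ∈ l, x ∈ l' := by
    by_contra hcon
    push Not at hcon
    exact hd (fun x hx hx2 => hcon x hx hx2)
  obtain ⟨m₁, x, m₂, rfl, hx, hm⟩ := exists_first (fun x => x ∈ l') l hex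
  obtain ⟨n₁, n₂, rfl⟩ := List.append_of_mem hx
  refine ⟨n₁ ++ x :: m₁.reverse, ?_,
    by simp only [List.length_append, List.length_cons]; omega, ?_⟩
  · -- the path `v t n₁`
    have hA : IsP G (v :: (t ++ n₁)) := by
      obtain ⟨init, hinit⟩ : ∃ init, v :: t = init ++ [w] := by
        rw [List.getLast?_eq_some_iff] at hw
        exact hw
      have h3 : v :: (t ++ n₁) = init ++ w :: n₁ := by
        have : (v :: t) ++ n₁ = (init ++ [w]) ++ n₁ := by rw [hinit]
        simpa using this
      rw [h3, isP_split]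
      refine ⟨by rw [← hinit]; exact hQ, ?_, ?_⟩
      · have : w :: (n₁ ++ x :: n₂) = (w :: n₁) ++ x :: n₂ := rfl
        rw [this] at h2
        exact h2.left
      · intro y hy hy2
        exact hd2 (by rw [hinit]; exact List.mem_append_left _ hy)
          (List.mem_append_left _ hy2)
    have hB : IsP G (v :: (t ++ n₁ ++ [x])) := by
      obtain ⟨init, hinit⟩ : ∃ init, v :: t = init ++ [w] := by
        rw [List.getLast?_eq_some_iff] at hw
        exact hw
      have h3 : v :: (t ++ n₁ ++ [x]) = init ++ w :: (n₁ ++ [x]) := by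
        have : (v :: t) ++ (n₁ ++ [x]) = (init ++ [w]) ++ (n₁ ++ [x]) := by rw [hinit]
        simpa using this
      rw [h3, isP_split]
      refine ⟨by rw [← hinit]; exact hQ, ?_, ?_⟩
      · have : w :: (n₁ ++ x :: n₂) = (w :: n₁) ++ x :: n₂ := rfl
        rw [this] at h2
        have := (isP_split.mp h2).1
        simpa using this
      · intro y hy hy2
        refine hd2 (by rw [hinit]; exact List.mem_append_left _ hy) ?_
        rcases List.mem_append.mp hy2 with h | h
        · exact List.mem_append_left _ h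
        · rw [List.mem_singleton] at h
          subst h
          simp
    have hC : IsP G (x :: m₁.reverse ++ [v]) := by
      have h4 : v :: (m₁ ++ x :: m₂) = (v :: m₁) ++ x :: m₂ := rfl
      rw [h4] at h1
      have := (isP_split.mp h1).1.reverse
      simpa using this
    refine ⟨?_, v, t ++ (n₁ ++ x :: m₁.reverse), rfl, ?_⟩
    · have h5 : v :: (t ++ (n₁ ++ x :: m₁.reverse)) = (v :: (t ++ n₁)) ++ x :: m₁.reverse := by
        simp
      rw [h5]
      have hC' : IsP G (x :: m₁.reverse) := by
        have : x :: m₁.reverse ++ [v] = (x :: m₁.reverse) ++ [v] := rfl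
        rw [this] at hC
        exact hC.left
      have hsp : IsP G ((v :: (t ++ n₁)) ++ x :: m₁.reverse) := by
        rw [isP_split]
        refine ⟨by simpa using hB, hC', ?_⟩
        intro y hy hy2
        have hy2 := List.mem_reverse.mp hy2
        have hy' : y ∈ (v :: t) ++ n₁ := by simpa using hy
        rcases List.mem_append.mp hy' with h | h
        · exact hd1 (List.mem_append_left _ hy2) h
        · exact hm y hy2 (List.mem_append_left _ h)
      exact hsp.1
    · have h6 : v :: (t ++ (n₁ ++ x :: m₁.reverse) ++ [v]) =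
          (v :: (t ++ n₁)) ++ x :: (m₁.reverse ++ [v]) := by simp
      rw [h6, List.isChain_split]
      exact ⟨by simpa using hB.2, by simpa using hC.2⟩
  · intro y hy
    rcases List.mem_append.mp hy with h | h
    · exact Or.inr (List.mem_append_left _ h)
    · rcases List.mem_cons.mp h with rfl | h
      · exact Or.inr (by simp)
      · exact Or.inl (List.mem_append_left _ (List.mem_reverse.mp h))

/-- peeling off a maximal set -/
theorem peel [DecidableEq V] {A S : Finset V} {a T : ℕ} (hAS : A ⊆ S) (hS : Det G S (T + a))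
    (hcyc : ∀ o, IsCyc G o → (∀ v ∈ o, v ∈ S) → o.length ≤ T + 1)
    (hext : ∀ v ∈ S, v ∉ A → ∃ l, IsP G (v :: l) ∧ (∀ x ∈ l, x ∈ A) ∧ a ≤ 2 * l.length) :
    Det G (S \ A) T := by
  intro Q hQ hQS
  rcases Q with _ | ⟨v, t⟩
  · simp
  obtain ⟨w, hw⟩ : ∃ w, (v :: t).getLast? = some w := by
    rcases h : (v :: t).getLast? with _ | w
    · rw [List.getLast?_eq_none_iff] at h
      exact absurd h (by simp)
    · exact ⟨w, rfl⟩
  have hwm : w ∈ v :: t := List.mem_of_getLast? hw
  have hmS : ∀ x ∈ v :: t, x ∈ S ∧ x ∉ A := fun x hx => Finset.mem_sdiff.mp (hQS x hx)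
  obtain ⟨l, hl, hlA, hl2⟩ := hext v (hmS v (by simp)).1 (hmS v (by simp)).2
  obtain ⟨l', hl', hlA', hl2'⟩ := hext w (hmS w hwm).1 (hmS w hwm).2
  have hd1 : List.Disjoint l (v :: t) := fun x hx hx2 => (hmS x hx2).2 (hlA x hx)
  have hd2 : List.Disjoint (v :: t) l' := fun x hx hx2 => (hmS x hx).2 (hlA' x hx2)
  by_cases hd : List.Disjoint l l'
  · have hP := isP_two hl hQ hl' hw hd1 hd2 hd
    have := hS _ hP (by
      intro x hx
      rcases List.mem_append.mp hx with h | h
      · exact hAS (hlA x (List.mem_reverse.mp h))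
      · have h' : x ∈ (v :: t) ++ l' := h
        rcases List.mem_append.mp h' with h | h
        · exact (hmS x h).1
        · exact hAS (hlA' x h))
    simp only [List.length_append, List.length_reverse, List.length_cons] at this ⊢
    omega
  · obtain ⟨m, hm, hm1, hm2⟩ := close_up hl hQ hl' hw hd1 hd2 hd
    have := hcyc _ hm (by
      intro x hx
      have h' : x ∈ (v :: t) ++ m := hx
      rcases List.mem_append.mp h' with h | h
      · exact (hmS x h).1
      · rcases hm2 x h with h | h
        · exact hAS (hlA x h)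
        · exact hAS (hlA' x h))
    simp only [List.length_append, List.length_cons] at this ⊢
    omega

/-- peeling with one end only -/
theorem peel_half [DecidableEq V] {A S : Finset V} {a T : ℕ} (hAS : A ⊆ S)
    (hS : Det G S (T + (a + 1) / 2))
    (hext : ∀ v ∈ S, v ∉ A → ∃ l, IsP G (v :: l) ∧ (∀ x ∈ l, x ∈ A) ∧ a ≤ 2 * l.length) :
    Det G (S \ A) T := by
  intro Q hQ hQS
  rcases Q with _ | ⟨v, t⟩
  · simp
  have hmS : ∀ x ∈ v :: t, x ∈ S ∧ x ∉ A := fun x hx => Finset.mem_sdiff.mp (hQS x hx)
  obtain ⟨l, hl, hlA, hl2⟩ := hext v (hmS v (by simp)).1 (hmS v (by simp)).2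
  have hP : IsP G (l.reverse ++ v :: t) := by
    rw [isP_split]
    refine ⟨by simpa using hl.reverse, hQ, ?_⟩
    intro x hx hx2
    exact (hmS x (List.mem_cons_of_mem _ hx2)).2 (hlA x (List.mem_reverse.mp hx))
  have := hS _ hP (by
    intro x hx
    rcases List.mem_append.mp hx with h | h
    · exact hAS (hlA x (List.mem_reverse.mp h))
    · exact (hmS x h).1)
  simp only [List.length_append, List.length_reverse, List.length_cons] at this ⊢
  omega

/-- maximal sets exist -/
theorem exists_max [DecidableEq V] (S : Finset V) (a : ℕ) : ∃ A ⊆ S, Det G A a ∧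
    ∀ v ∈ S, v ∉ A → ∃ l, IsP G (v :: l) ∧ (∀ x ∈ l, x ∈ A) ∧ a ≤ 2 * l.length := by
  classical
  obtain ⟨A, hA, hmax⟩ := Finset.exists_max_image (S.powerset.filter (fun A => Det G A a))
    Finset.card ⟨∅, by
      rw [Finset.mem_filter]
      refine ⟨Finset.empty_mem_powerset _, ?_⟩
      intro l _ hl
      rcases l with _ | ⟨x, l⟩
      · simp
      · exact absurd (hl x (by simp)) (Finset.notMem_empty _)⟩
  rw [Finset.mem_filter, Finset.mem_powerset] at hA
  refine ⟨A, hA.1, hA.2, ?_⟩
  intro v hv hvA
  refine extend hA.2 ?_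
  intro hcon
  have := hmax (insert v A) (by
    rw [Finset.mem_filter, Finset.mem_powerset]
    exact ⟨Finset.insert_subset hv hA.1, hcon⟩)
  rw [Finset.card_insert_of_notMem hvA] at this
  omega

end Pool.Agent.Lib.MP_29e7a7_co.OC
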