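import Pool.Agent.Lib.MP_29e7a7_co.OC.Core

/-!
# Path partitions with a small surplus: the part around a long cycle
-/

set_option autoImplicit false

namespace Pool.Agent.Lib.MP_29e7a7_co.OC

open Pool.Agent.Lib.MP_29e7a7_co.PP

variable {V : Type} {G : SimpleGraph V}

/-- a path outside the cycle starting next to the cycle -/
theorem att {o l : List V} {y z : V} {S : Finset V} {N : ℕ} (hO : IsCyc G o)
    (hoS : ∀ v ∈ o, v ∈ S) (hS : Det G S N) (hl : IsP G l) (hy : l.head? = some y)
    (hlS : ∀ v ∈ l, v ∈ S ∧ v ∉ o) (hz : z ∈ o) (hzy : G.Adj z y) :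
    o.length + l.length ≤ N := by
  obtain ⟨l₁, l₂, ho⟩ := List.append_of_mem hz
  have h1 := rot_end hO ho
  have h2 : IsP G (z :: l) := by
    refine ⟨List.nodup_cons.mpr ⟨fun h => (hlS z h).2 hz, hl.1⟩, ?_⟩
    rcases l with _ | ⟨w, l⟩
    · exact List.isChain_singleton _
    · simp only [List.head?_cons, Option.some.injEq] at hy
      subst hy
      rw [List.isChain_cons_cons]
      exact ⟨hzy, hl.2⟩
  have h3 : IsP G ((l₂ ++ l₁) ++ z :: l) := by
    rw [isP_split]
    refine ⟨h1, h2, ?_⟩
    intro x hx hx2
    refine (hlS x hx2).2 ?_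
    rw [ho]
    rcases List.mem_append.mp hx with h | h
    · exact List.mem_append_right _ (List.mem_cons_of_mem _ h)
    · exact List.mem_append_left _ h
  have h4 := hS _ h3 (by
    intro x hx
    rcases List.mem_append.mp hx with h | h
    · apply hoS
      rw [ho]
      rcases List.mem_append.mp h with h | h
      · exact List.mem_append_right _ (List.mem_cons_of_mem _ h)
      · exact List.mem_append_left _ h
    · rcases List.mem_cons.mp h with rfl | h
      · exact hoS x hz
      · exact (hlS x h).1)
  rw [ho]
  simp only [List.length_append, List.length_cons] at h4 ⊢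
  omega

/-- `v` is joined to the cycle `o` by a path in `S` outside `o` -/
def Att (G : SimpleGraph V) (S : Finset V) (o : List V) (v : V) : Prop :=
  ∃ (L : List V) (y z : V), IsP G L ∧ L.head? = some y ∧ v ∈ L ∧ (∀ u ∈ L, u ∈ S ∧ u ∉ o) ∧
    z ∈ o ∧ G.Adj z y

theorem att_of_reach {S : Finset V} {o : List V} {z v : V} (hz : z ∈ o)
    (h : Relation.ReflTransGen (fun x y => G.Adj x y ∧ y ∈ S) z v) : v ∈ o ∨ Att G S o v := by
  induction h with
  | refl => exact Or.inl hz
  | @tail v w _ hvw ih =>
    obtain ⟨hadj, hw⟩ := hvw
    by_cases hwo : w ∈ o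
    · exact Or.inl hwo
    right
    rcases ih with hvo | ⟨L, y, z', hL, hhead, hvL, hLS, hz', hz'y⟩
    · exact ⟨[w], w, v, isP_singleton w, rfl, by simp,
        fun u hu => by rw [List.mem_singleton] at hu; subst hu; exact ⟨hw, hwo⟩, hvo, hadj⟩
    · by_cases hwL : w ∈ L
      · exact ⟨L, y, z', hL, hhead, hwL, hLS, hz', hz'y⟩
      · obtain ⟨L₁, L₂, rfl⟩ := List.append_of_mem hvL
        have h1 := (isP_split.mp hL).1
        refine ⟨L₁ ++ [v, w], y, z', ?_, ?_, by simp, ?_, hz', hz'y⟩
        · have h2 : IsP G (v :: [w]) := by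
            refine ⟨?_, ?_⟩
            · simp only [List.nodup_cons, List.mem_singleton, List.not_mem_nil,
                not_false_eq_true, List.nodup_nil, and_true]
              exact hadj.ne
            · rw [List.isChain_cons_cons]
              exact ⟨hadj, List.isChain_singleton _⟩
          have : L₁ ++ [v, w] = L₁ ++ v :: [w] := rfl
          rw [this, isP_split]
          refine ⟨h1, h2, ?_⟩
          intro x hx hx2
          rw [List.mem_singleton] at hx2
          subst hx2
          exact hwL (List.mem_append_left _ hx)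
        · rcases L₁ with _ | ⟨b, L₁⟩
          · simpa using hhead
          · simpa using hhead
        · intro u hu
          rcases List.mem_append.mp hu with hu | hu
          · exact hLS u (List.mem_append_left _ hu)
          · rcases List.mem_cons.mp hu with rfl | hu
            · exact hLS u (by simp)
            · rw [List.mem_singleton] at hu
              subst hu
              exact ⟨hw, hwo⟩

/-- a path outside the cycle -/
theorem det_rest {S : Finset V} {o P : List V} {x : V} {N : ℕ} (hO : IsCyc G o)
    (hoS : ∀ v ∈ o, v ∈ S) (hS : Det G S N) (hP : IsP G P) (hPS : ∀ v ∈ P, v ∈ S ∧ v ∉ o)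
    (hx : x ∈ P) (hatt : Att G S o x) : 2 * o.length + P.length + 1 ≤ 2 * N := by
  obtain ⟨L, y, z, hL, hhead, hxL, hLS, hz, hzy⟩ := hatt
  obtain ⟨L₁, u, L₂, rfl, hu, hL1⟩ := exists_first (fun u => u ∈ P) L ⟨x, hxL, hx⟩
  obtain ⟨P₁, P₂, rfl⟩ := List.append_of_mem hu
  have hs := isP_split.mp hP
  have hLs := (isP_split.mp hL).1
  have hA : IsP G (L₁ ++ u :: P₂) := by
    rw [isP_split]
    exact ⟨hLs, hs.2.1, fun w hw hw2 =>
      hL1 w hw (List.mem_append_right _ (List.mem_cons_of_mem _ hw2))⟩
  have hB : IsP G (L₁ ++ u :: P₁.reverse) := by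
    rw [isP_split]
    refine ⟨hLs, by simpa using hs.1.reverse, fun w hw hw2 =>
      hL1 w hw (List.mem_append_left _ (List.mem_reverse.mp hw2))⟩
  have hhd : ∀ t : List V, (L₁ ++ u :: t).head? = some y := by
    intro t
    rcases L₁ with _ | ⟨b, L₁⟩
    · simpa using hhead
    · simpa using hhead
  have h1 := att hO hoS hS hA (hhd _) (by
    intro v hv
    rcases List.mem_append.mp hv with h | h
    · exact hLS v (List.mem_append_left _ h)
    · exact hPS v (List.mem_append_right _ h)) hz hzy
  have h2 := att hO hoS hS hB (hhd _) (by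
    intro v hv
    rcases List.mem_append.mp hv with h | h
    · exact hLS v (List.mem_append_left _ h)
    · rcases List.mem_cons.mp h with rfl | h
      · exact hPS v hu
      · exact hPS v (List.mem_append_left _ (List.mem_reverse.mp h))) hz hzy
  simp only [List.length_append, List.length_cons, List.length_reverse] at h1 h2 ⊢
  omega

/-- a cycle outside the cycle -/
theorem cyc_rest {S : Finset V} {o q : List V} {x : V} {N : ℕ} (hO : IsCyc G o)
    (hoS : ∀ v ∈ o, v ∈ S) (hS : Det G S N) (hq : IsCyc G q) (hqS : ∀ v ∈ q, v ∈ S ∧ v ∉ o)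
    (hx : x ∈ q) (hatt : Att G S o x) : o.length + q.length ≤ N := by
  obtain ⟨L, y, z, hL, hhead, hxL, hLS, hz, hzy⟩ := hatt
  obtain ⟨L₁, u, L₂, rfl, hu, hL1⟩ := exists_first (fun u => u ∈ q) L ⟨x, hxL, hx⟩
  obtain ⟨q₁, q₂, hqe⟩ := List.append_of_mem hu
  have hr := rot_start hq hqe
  have hLs := (isP_split.mp hL).1
  have hmem : ∀ v ∈ q₂ ++ q₁, v ∈ q := by
    intro v hv
    rw [hqe]
    rcases List.mem_append.mp hv with h | h
    · exact List.mem_append_right _ (List.mem_cons_of_mem _ h)
    · exact List.mem_append_left _ h
  have hA : IsP G (L₁ ++ u :: (q₂ ++ q₁)) := by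
    rw [isP_split]
    exact ⟨hLs, hr, fun w hw hw2 => hL1 w hw (hmem w hw2)⟩
  have hhd : (L₁ ++ u :: (q₂ ++ q₁)).head? = some y := by
    rcases L₁ with _ | ⟨b, L₁⟩
    · simpa using hhead
    · simpa using hhead
  have h1 := att hO hoS hS hA hhd (by
    intro v hv
    rcases List.mem_append.mp hv with h | h
    · exact hLS v (List.mem_append_left _ h)
    · rcases List.mem_cons.mp h with rfl | h
      · exact hqS v hu
      · exact hqS v (hmem v h)) hz hzy
  have hlen : q.length = q₁.length + q₂.length + 1 := by rw [hqe]; simp; omega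
  simp only [List.length_append, List.length_cons] at h1
  omega

/-- a path meeting the cycle only in an arc -/
theorem arc {S : Finset V} {X M Q : List V} {N : ℕ} (hO : IsCyc G (X ++ M))
    (hoS : ∀ v ∈ X ++ M, v ∈ S) (hS : Det G S N) (hQ : IsP G Q) (hQS : ∀ v ∈ Q, v ∈ S ∧ v ∉ M)
    (hx : ∃ x ∈ X, x ∈ Q) : 2 * M.length + Q.length + 1 ≤ 2 * N := by
  obtain ⟨X₁, x, X₂, rfl, hxQ, hX1⟩ := exists_first (fun u => u ∈ Q) X hx
  obtain ⟨Q₁, Q₂, rfl⟩ := List.append_of_mem hxQ
  have hW : IsP G ((M ++ X₁) ++ [x]) := by
    have he : X₁ ++ x :: X₂ ++ M = X₁ ++ x :: (X₂ ++ M) := by simp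
    have h1 := rot_end hO he
    have h2 : X₂ ++ M ++ X₁ ++ [x] = X₂ ++ ((M ++ X₁) ++ [x]) := by simp
    rw [h2] at h1
    exact h1.right
  have hs := isP_split.mp hQ
  have hA : IsP G ((M ++ X₁) ++ x :: Q₂) := by
    rw [isP_split]
    refine ⟨hW, hs.2.1, ?_⟩
    intro w hw hw2
    rcases List.mem_append.mp hw with h | h
    · exact (hQS w (List.mem_append_right _ (List.mem_cons_of_mem _ hw2))).2 h
    · exact hX1 w h (List.mem_append_right _ (List.mem_cons_of_mem _ hw2))
  have hB : IsP G ((M ++ X₁) ++ x :: Q₁.reverse) := by
    rw [isP_split]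
    refine ⟨hW, by simpa using hs.1.reverse, ?_⟩
    intro w hw hw2
    have hw2 := List.mem_reverse.mp hw2
    rcases List.mem_append.mp hw with h | h
    · exact (hQS w (List.mem_append_left _ hw2)).2 h
    · exact hX1 w h (List.mem_append_left _ hw2)
  have hWS : ∀ v ∈ M ++ X₁, v ∈ S := by
    intro v hv
    apply hoS
    rcases List.mem_append.mp hv with h | h
    · exact List.mem_append_right _ h
    · exact List.mem_append_left _ (List.mem_append_left _ h)
  have h1 := hS _ hA (by
    intro v hv
    rcases List.mem_append.mp hv with h | h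
    · exact hWS v h
    · exact (hQS v (List.mem_append_right _ h)).1)
  have h2 := hS _ hB (by
    intro v hv
    rcases List.mem_append.mp hv with h | h
    · exact hWS v h
    · rcases List.mem_cons.mp h with rfl | h
      · exact (hQS v (by simp)).1
      · exact (hQS v (List.mem_append_left _ (List.mem_reverse.mp h))).1)
  simp only [List.length_append, List.length_cons, List.length_reverse] at h1 h2 ⊢
  omega

/-- distributing a set among classes of prescribed sizes -/
theorem assign [DecidableEq V] (a : ℕ → ℕ) : ∀ (k : ℕ) (M : Finset V),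
    M.card ≤ ∑ i ∈ Finset.range k, a i →
    ∃ g : V → ℕ, (∀ v ∈ M, g v < k) ∧ ∀ i < k, (M.filter (fun v => g v = i)).card ≤ a i := by
  intro k
  induction k with
  | zero =>
    intro M hM
    simp only [Finset.range_zero, Finset.sum_empty, Nat.le_zero, Finset.card_eq_zero] at hM
    subst hM
    exact ⟨fun _ => 0, fun v hv => absurd hv (Finset.notMem_empty _), fun i hi => absurd hi (by omega)⟩
  | succ k ih =>
    intro M hM
    rw [Finset.sum_range_succ] at hM
    by_cases hc : M.card ≤ ∑ i ∈ Finset.range k, a i
    · obtain ⟨g, hg, hg2⟩ := ih M hc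
      refine ⟨g, fun v hv => by have := hg v hv; omega, ?_⟩
      intro i hi
      by_cases hik : i = k
      · subst hik
        have : M.filter (fun v => g v = i) = ∅ := by
          rw [Finset.filter_eq_empty_iff]
          intro v hv h
          have := hg v hv
          omega
        rw [this]
        simp
      · exact hg2 i (by omega)
    · obtain ⟨M', hM', hcard⟩ := Finset.exists_subset_card_eq
        (show ∑ i ∈ Finset.range k, a i ≤ M.card by omega)
      obtain ⟨g, hg, hg2⟩ := ih M' (by omega)
      refine ⟨fun v => if v ∈ M' then g v else k, ?_, ?_⟩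
      · intro v hv
        by_cases h : v ∈ M'
        · simp only [h, if_true]
          have := hg v h
          omega
        · simp only [h, if_false]
          omega
      · intro i hi
        by_cases hik : i = k
        · subst hik
          have hsub : M.filter (fun v => (if v ∈ M' then g v else i) = i) ⊆ M \ M' := by
            intro v hv
            rw [Finset.mem_filter] at hv
            rw [Finset.mem_sdiff]
            refine ⟨hv.1, ?_⟩
            intro h
            have h2 := hv.2
            simp only [h, if_true] at h2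
            have := hg v h
            omega
          have h1 := Finset.card_le_card hsub
          rw [Finset.card_sdiff_of_subset hM'] at h1
          beta_reduce
          omega
        · refine (Finset.card_le_card ?_).trans (hg2 i (by omega))
          intro v hv
          rw [Finset.mem_filter] at hv ⊢
          by_cases h : v ∈ M'
          · have h2 := hv.2
            simp only [h, if_true] at h2
            exact ⟨h, h2⟩
          · have h2 := hv.2
            simp only [h, if_false] at h2
            omega

/-- a path in the union of two sets without edges between them -/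
theorem no_cross {U W : Set V} (hUW : ∀ u ∈ U, ∀ w ∈ W, ¬ G.Adj u w) : ∀ l : List V,
    l.IsChain G.Adj → (∀ v ∈ l, v ∈ U ∨ v ∈ W) → (∀ v ∈ l, v ∈ U) ∨ (∀ v ∈ l, v ∈ W) := by
  intro l
  induction l with
  | nil => intro _ _; exact Or.inl (fun v hv => absurd hv (List.not_mem_nil))
  | cons x l ih =>
    intro hc hl
    have hx := hl x (by simp)
    rcases l with _ | ⟨y, l⟩
    · rcases hx with h | h
      · exact Or.inl (fun v hv => by rw [List.mem_singleton] at hv; subst hv; exact h)
      · exact Or.inr (fun v hv => by rw [List.mem_singleton] at hv; subst hv; exact h)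
    · rw [List.isChain_cons_cons] at hc
      rcases ih hc.2 (fun v hv => hl v (List.mem_cons_of_mem _ hv)) with h | h
      · left
        intro v hv
        rcases List.mem_cons.mp hv with rfl | hv
        · rcases hx with hx | hx
          · exact hx
          · exact absurd hc.1.symm (hUW y (h y (by simp)) _ hx)
        · exact h v hv
      · right
        intro v hv
        rcases List.mem_cons.mp hv with rfl | hv
        · rcases hx with hx | hx
          · exact absurd hc.1 (hUW _ hx y (h y (by simp)))
          · exact hx
        · exact h v hv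

end Pool.Agent.Lib.MP_29e7a7_co.OC
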