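import Pool.Agent.Lib.MP_29e7a7_co.OC.Cyc

/-!
# Path partitions with a small surplus: the induction
-/

set_option autoImplicit false

namespace Pool.Agent.Lib.MP_29e7a7_co.OC

open Pool.Agent.Lib.MP_29e7a7_co.PP

variable {V : Type} {G : SimpleGraph V}

theorem isCyc_ne_nil {o : List V} (h : IsCyc G o) : ∃ x, x ∈ o := by
  obtain ⟨_, x, l, rfl, _⟩ := h
  exact ⟨x, by simp⟩

theorem length_le_card {l : List V} {U : Finset V} (hl : l.Nodup) (h : ∀ v ∈ l, v ∈ U) :
    l.length ≤ U.card := by
  classical
  rw [← List.toFinset_card_of_nodup hl]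
  refine Finset.card_le_card ?_
  intro v hv
  exact h v (List.mem_toFinset.mp hv)

/-- colouring the component of a long cycle; the parts are `0, ..., k` -/
theorem case_cyc [DecidableEq V] {a : ℕ → ℕ} (ha : Antitone a) {k σ T : ℕ} (hk : 2 ≤ k)
    (hσ : a 1 ≤ 2 * σ + 1) (hT : T + σ = ∑ i ∈ Finset.range k, a i) {S K : Finset V}
    (hKS : K ⊆ S) (hS : Det G S (T + a k)) {o : List V} (hO : IsCyc G o)
    (hoK : ∀ v ∈ o, v ∈ K) (hlen : T + 2 ≤ o.length)
    (hreach : ∀ v ∈ K, v ∈ o ∨ Att G S o v) :
    ∃ f : V → ℕ, (∀ v ∈ K, f v < k + 1) ∧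
      ∀ i < k + 1, Det G (K.filter (fun v => f v = i)) (a i) := by
  classical
  have hoS : ∀ v ∈ o, v ∈ S := fun v hv => hKS (hoK v hv)
  set δ := o.length - ∑ i ∈ Finset.range k, a i with hδ
  set X := o.take δ with hX
  set M := o.drop δ with hM
  have hXM : X ++ M = o := List.take_append_drop δ o
  have hMlen : M.length = o.length - δ := by rw [hM, List.length_drop]
  have hMnd : M.Nodup := (List.drop_sublist δ o).nodup hO.1
  have hMo : ∀ v ∈ M, v ∈ o := fun v hv => List.mem_of_mem_drop hv
  obtain ⟨g, hg, hg2⟩ := assign a k M.toFinset (by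
    rw [List.toFinset_card_of_nodup hMnd]; omega)
  set R₂ := K.filter (fun v => v ∉ o ∧ ∀ z ∈ o, ¬ G.Adj z v) with hR₂
  have hR₂mem : ∀ v ∈ R₂, v ∈ K ∧ v ∉ o ∧ ∀ z ∈ o, ¬ G.Adj z v := fun v hv => by
    rw [hR₂, Finset.mem_filter] at hv
    exact hv
  have hdet₂ : Det G R₂ (a k + a k) := by
    intro P hP hPR
    rcases P with _ | ⟨x, P⟩
    · simp
    have hx := hR₂mem x (hPR x (by simp))
    have hat := (hreach x hx.1).resolve_left hx.2.1
    have := det_rest hO hoS hS hP (fun v hv =>
      ⟨hKS (hR₂mem v (hPR v hv)).1, (hR₂mem v (hPR v hv)).2.1⟩) (by simp) hat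
    omega
  have hcyc₂ : ∀ q, IsCyc G q → (∀ v ∈ q, v ∈ R₂) → q.length ≤ a k + 1 := by
    intro q hq hqR
    obtain ⟨x, hxq⟩ := isCyc_ne_nil hq
    have hx := hR₂mem x (hqR x hxq)
    have hat := (hreach x hx.1).resolve_left hx.2.1
    have := cyc_rest hO hoS hS hq (fun v hv =>
      ⟨hKS (hR₂mem v (hqR v hv)).1, (hR₂mem v (hqR v hv)).2.1⟩) hxq hat
    omega
  obtain ⟨B, hBR, hBdet, hBext⟩ := exists_max (G := G) R₂ (a k)
  have hDdet := peel hBR hdet₂ hcyc₂ hBext
  have hMR : ∀ u ∈ {v | v ∈ M}, ∀ w ∈ {v | v ∈ R₂}, ¬ G.Adj u w := fun u hu w hw =>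
    (hR₂mem w hw).2.2 u (hMo u hu)
  refine ⟨fun v => if v ∈ M then g v else if v ∈ B then 0 else if v ∈ R₂ then 1 else k, ?_, ?_⟩
  · intro v _
    by_cases h1 : v ∈ M
    · simp only [h1, if_true]
      have := hg v (List.mem_toFinset.mpr h1)
      omega
    · simp only [h1, if_false]
      split_ifs <;> omega
  intro i hi Q hQ hQi
  have hQi' : ∀ v ∈ Q, v ∈ K ∧
      (if v ∈ M then g v else if v ∈ B then 0 else if v ∈ R₂ then 1 else k) = i := fun v hv => by
    have := hQi v hv
    rw [Finset.mem_filter] at this
    exact this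
  by_cases hik : i = k
  · -- the last class
    subst hik
    have hQM : ∀ v ∈ Q, v ∉ M ∧ v ∉ R₂ := by
      intro v hv
      have h := (hQi' v hv).2
      by_cases h1 : v ∈ M
      · simp only [h1, if_true] at h
        have := hg v (List.mem_toFinset.mpr h1)
        omega
      · refine ⟨h1, ?_⟩
        simp only [h1, if_false] at h
        by_cases h2 : v ∈ B
        · simp only [h2, if_true] at h
          omega
        · simp only [h2, if_false] at h
          intro h3
          simp only [h3, if_true] at h
          omega
    by_cases hx : ∃ x ∈ X, x ∈ Q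
    · have hδ0 : 0 < δ := by
        obtain ⟨x, hx, _⟩ := hx
        by_contra h0
        have : δ = 0 := by omega
        rw [hX, this] at hx
        simp at hx
      have h1 := arc (X := X) (M := M) (by rw [hXM]; exact hO) (by rw [hXM]; exact hoS) hS hQ
        (fun v hv => ⟨hKS (hQi' v hv).1, (hQM v hv).1⟩) hx
      have h2 : a i ≤ a 1 := ha (by omega)
      omega
    · rcases Q with _ | ⟨y, Q⟩
      · simp
      have hQo : ∀ v ∈ y :: Q, v ∉ o := by
        intro v hv hvo
        rw [← hXM] at hvo
        rcases List.mem_append.mp hvo with h | h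
        · exact hx ⟨v, h, hv⟩
        · exact (hQM v hv).1 h
      have hy : ∃ z ∈ o, G.Adj z y := by
        by_contra hcon
        push Not at hcon
        refine (hQM y (by simp)).2 ?_
        rw [hR₂, Finset.mem_filter]
        exact ⟨(hQi' y (by simp)).1, hQo y (by simp), hcon⟩
      obtain ⟨z, hz, hzy⟩ := hy
      have := att hO hoS hS hQ rfl (fun v hv => ⟨hKS (hQi' v hv).1, hQo v hv⟩) hz hzy
      omega
  · have hik' : i < k := by omega
    -- a class with a part of the cycle
    rcases no_cross hMR Q hQ.2 (by
      intro v hv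
      have h := (hQi' v hv).2
      by_cases h1 : v ∈ M
      · exact Or.inl h1
      · simp only [h1, if_false] at h
        by_cases h2 : v ∈ B
        · exact Or.inr (hBR h2)
        · simp only [h2, if_false] at h
          by_cases h3 : v ∈ R₂
          · exact Or.inr h3
          · simp only [h3, if_false] at h
            omega) with h | h
    · refine (length_le_card hQ.1 ?_).trans (hg2 i hik')
      intro v hv
      have hvM : v ∈ M := h v hv
      have h2 := (hQi' v hv).2
      simp only [hvM, if_true] at h2
      rw [Finset.mem_filter]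
      exact ⟨List.mem_toFinset.mpr hvM, h2⟩
    · have hnM : ∀ v ∈ Q, v ∉ M := fun v hv hvM =>
        (hR₂mem v (h v hv)).2.1 (hMo v hvM)
      by_cases hi0 : i = 0
      · subst hi0
        refine (hBdet Q hQ ?_).trans (ha (Nat.zero_le k))
        intro v hv
        have h2 := (hQi' v hv).2
        simp only [hnM v hv, if_false] at h2
        by_contra hvB
        simp only [hvB, if_false] at h2
        have h3 : v ∈ R₂ := h v hv
        simp only [h3, if_true] at h2
        omega
      · rcases Q with _ | ⟨y, Q⟩
        · simp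
        have hi1 : i = 1 := by
          have h2 := (hQi' y (by simp)).2
          have h3 : y ∈ R₂ := h y (by simp)
          simp only [hnM y (by simp), if_false, h3, if_true] at h2
          by_cases hyB : y ∈ B
          · simp only [hyB, if_true] at h2
            omega
          · simp only [hyB, if_false] at h2
            omega
        subst hi1
        refine (hDdet _ hQ ?_).trans (ha (by omega))
        intro v hv
        have h2 := (hQi' v hv).2
        have h3 : v ∈ R₂ := h v hv
        simp only [hnM v hv, if_false, h3, if_true] at h2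
        rw [Finset.mem_sdiff]
        refine ⟨h3, ?_⟩
        intro hvB
        simp only [hvB, if_true] at h2
        omega

/-- the induction step on the number of parts -/
theorem step [DecidableEq V] {a : ℕ → ℕ} (ha : Antitone a) {k σ T : ℕ} (hk : 2 ≤ k)
    (hσ : a 1 ≤ 2 * σ + 1) (hT : T + σ = ∑ i ∈ Finset.range k, a i)
    (ih : ∀ S : Finset V, Det G S T → ∃ f : V → ℕ, (∀ v ∈ S, f v < k) ∧
      ∀ i < k, Det G (S.filter (fun v => f v = i)) (a i)) :
    ∀ (n : ℕ) (S : Finset V), S.card = n → Det G S (T + a k) →
      ∃ f : V → ℕ, (∀ v ∈ S, f v < k + 1) ∧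
        ∀ i < k + 1, Det G (S.filter (fun v => f v = i)) (a i) := by
  classical
  intro n
  induction n using Nat.strong_induction_on with
  | _ n ihn =>
    intro S hn hS
    by_cases hc : ∀ o, IsCyc G o → (∀ v ∈ o, v ∈ S) → o.length ≤ T + 1
    · -- peel off the last class
      obtain ⟨A, hAS, hA, hext⟩ := exists_max (G := G) S (a k)
      obtain ⟨f, hf, hf2⟩ := ih (S \ A) (peel hAS hS hc hext)
      refine ⟨fun v => if v ∈ A then k else f v, ?_, ?_⟩
      · intro v hv
        by_cases h : v ∈ A
        · simp only [h, if_true]; omega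
        · simp only [h, if_false]
          have := hf v (Finset.mem_sdiff.mpr ⟨hv, h⟩)
          omega
      · intro i hi Q hQ hQi
        have hQi' : ∀ v ∈ Q, v ∈ S ∧ (if v ∈ A then k else f v) = i := fun v hv => by
          have := hQi v hv
          rw [Finset.mem_filter] at this
          exact this
        by_cases hik : i = k
        · subst hik
          refine hA Q hQ ?_
          intro v hv
          by_contra hvA
          have h2 := (hQi' v hv).2
          simp only [hvA, if_false] at h2
          have := hf v (Finset.mem_sdiff.mpr ⟨(hQi' v hv).1, hvA⟩)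
          omega
        · refine hf2 i (by omega) Q hQ ?_
          intro v hv
          have h2 := (hQi' v hv).2
          have hvA : v ∉ A := by
            intro hvA
            simp only [hvA, if_true] at h2
            omega
          simp only [hvA, if_false] at h2
          rw [Finset.mem_filter, Finset.mem_sdiff]
          exact ⟨⟨(hQi' v hv).1, hvA⟩, h2⟩
    · push Not at hc
      obtain ⟨o, hO, hoS, hlen⟩ := hc
      set K := S.filter (fun v => ∃ z ∈ o,
        Relation.ReflTransGen (fun x y => G.Adj x y ∧ y ∈ S) z v) with hK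
      have hKS : K ⊆ S := Finset.filter_subset _ _
      have hoK : ∀ v ∈ o, v ∈ K := fun v hv => by
        rw [hK, Finset.mem_filter]
        exact ⟨hoS v hv, v, hv, Relation.ReflTransGen.refl⟩
      have hreach : ∀ v ∈ K, v ∈ o ∨ Att G S o v := by
        intro v hv
        rw [hK, Finset.mem_filter] at hv
        obtain ⟨_, z, hz, hzv⟩ := hv
        exact att_of_reach hz hzv
      have hclosed : ∀ u ∈ {v | v ∈ K}, ∀ w ∈ {v | v ∈ S \ K}, ¬ G.Adj u w := by
        intro u hu w hw hadj
        have hu' : u ∈ K := hu
        have hw' : w ∈ S \ K := hw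
        rw [Finset.mem_sdiff] at hw'
        rw [hK, Finset.mem_filter] at hu'
        obtain ⟨_, z, hz, hzu⟩ := hu'
        refine hw'.2 ?_
        rw [hK, Finset.mem_filter]
        exact ⟨hw'.1, z, hz, hzu.tail ⟨hadj, hw'.1⟩⟩
      obtain ⟨f₁, hf₁, hf₁2⟩ := case_cyc ha hk hσ hT hKS hS hO hoK (by omega) hreach
      obtain ⟨x, hx⟩ := isCyc_ne_nil hO
      have hcard : (S \ K).card < n := by
        rw [Finset.card_sdiff_of_subset hKS, hn]
        have h1 : 0 < K.card := Finset.card_pos.mpr ⟨x, hoK x hx⟩
        have h2 : K.card ≤ S.card := Finset.card_le_card hKS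
        omega
      obtain ⟨f₂, hf₂, hf₂2⟩ := ihn _ hcard (S \ K) rfl (hS.mono Finset.sdiff_subset le_rfl)
      refine ⟨fun v => if v ∈ K then f₁ v else f₂ v, ?_, ?_⟩
      · intro v hv
        by_cases h : v ∈ K
        · simp only [h, if_true]
          exact hf₁ v h
        · simp only [h, if_false]
          exact hf₂ v (Finset.mem_sdiff.mpr ⟨hv, h⟩)
      · intro i hi Q hQ hQi
        have hQi' : ∀ v ∈ Q, v ∈ S ∧ (if v ∈ K then f₁ v else f₂ v) = i := fun v hv => by
          have := hQi v hv
          rw [Finset.mem_filter] at this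
          exact this
        rcases no_cross hclosed Q hQ.2 (by
          intro v hv
          by_cases h : v ∈ K
          · exact Or.inl h
          · exact Or.inr (Finset.mem_sdiff.mpr ⟨(hQi' v hv).1, h⟩)) with h | h
        · refine hf₁2 i hi Q hQ ?_
          intro v hv
          have h1 : v ∈ K := h v hv
          have h2 := (hQi' v hv).2
          simp only [h1, if_true] at h2
          rw [Finset.mem_filter]
          exact ⟨h1, h2⟩
        · refine hf₂2 i hi Q hQ ?_
          intro v hv
          have h1 : v ∈ S \ K := h v hv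
          have h3 := (Finset.mem_sdiff.mp h1).2
          have h2 := (hQi' v hv).2
          simp only [h3, if_false] at h2
          rw [Finset.mem_filter]
          exact ⟨h1, h2⟩

/-- path partition with surplus `⌊a 1 / 2⌋` -/
theorem main [DecidableEq V] {a : ℕ → ℕ} (ha : Antitone a) : ∀ (k N : ℕ) (S : Finset V),
    Det G S N → N + a 1 / 2 ≤ ∑ i ∈ Finset.range k, a i →
    ∃ f : V → ℕ, (∀ v ∈ S, f v < k) ∧
      ∀ i < k, Det G (S.filter (fun v => f v = i)) (a i) := by
  classical
  intro k
  induction k with
  | zero =>
    intro N S hS hN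
    simp only [Finset.range_zero, Finset.sum_empty, Nat.le_zero] at hN
    have hN0 : N = 0 := by omega
    refine ⟨fun _ => 0, ?_, fun i hi => absurd hi (by omega)⟩
    intro v hv
    have := hS [v] (isP_singleton v) (fun w hw => by
      rw [List.mem_singleton] at hw; subst hw; exact hv)
    simp only [List.length_singleton] at this
    omega
  | succ k ih =>
    intro N S hS hN
    rw [Finset.sum_range_succ] at hN
    rcases k with _ | _ | k
    · -- one part
      simp only [Finset.range_zero, Finset.sum_empty, zero_add] at hN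
      refine ⟨fun _ => 0, fun v _ => Nat.succ_pos _, ?_⟩
      intro i hi
      have hi0 : i = 0 := by omega
      subst hi0
      exact hS.mono (Finset.filter_subset _ _) (by omega)
    · -- two parts
      simp only [zero_add, Finset.range_one, Finset.sum_singleton] at hN
      obtain ⟨A, hAS, hA, hext⟩ := exists_max (G := G) S (a 1)
      have h1 : Det G (S \ A) (a 0) := peel_half hAS (hS.mono (Finset.Subset.refl _) (by omega)) hext
      refine ⟨fun v => if v ∈ A then 1 else 0, ?_, ?_⟩
      · intro v _
        beta_reduce
        split_ifs <;> omega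
      · intro i hi Q hQ hQi
        have hQi' : ∀ v ∈ Q, v ∈ S ∧ (if v ∈ A then 1 else 0) = i := fun v hv => by
          have := hQi v hv
          rw [Finset.mem_filter] at this
          exact this
        by_cases hi1 : i = 1
        · subst hi1
          refine hA Q hQ ?_
          intro v hv
          by_contra h
          have h2 := (hQi' v hv).2
          simp only [h, if_false] at h2
          omega
        · have hi0 : i = 0 := by omega
          subst hi0
          refine h1 Q hQ ?_
          intro v hv
          rw [Finset.mem_sdiff]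
          refine ⟨(hQi' v hv).1, ?_⟩
          intro h
          have h2 := (hQi' v hv).2
          simp only [h, if_true] at h2
          omega
    · -- at least three parts
      have hsum : a 0 ≤ ∑ i ∈ Finset.range (k + 1 + 1), a i :=
        Finset.single_le_sum (f := a) (fun _ _ => Nat.zero_le _)
          (Finset.mem_range.mpr (by omega))
      have h01 : a 1 ≤ a 0 := ha (by omega)
      have hT : (∑ i ∈ Finset.range (k + 1 + 1), a i - a 1 / 2) + a 1 / 2 =
          ∑ i ∈ Finset.range (k + 1 + 1), a i := by omega
      refine step ha (k := k + 1 + 1) (σ := a 1 / 2)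
        (T := ∑ i ∈ Finset.range (k + 1 + 1), a i - a 1 / 2) (by omega) (by omega) hT ?_
        S.card S rfl (hS.mono (Finset.Subset.refl _) (by omega))
      intro S' hS'
      exact ih _ S' hS' (by omega)

end Pool.Agent.Lib.MP_29e7a7_co.OC
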